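import Pool.Agent.H104.MZ.Stm

/-!
# MZ-EXT (helper150 for helper104): extension
-/

set_option autoImplicit false

open Polynomial Finset

namespace Pool.Agent.Q150.MZ

open Pool.Agent.H104.MZ

namespace EXT

theorem relE (hM : S_MOM1) {L : ℤ[X]} {d : ℕ} {E : ℝ[X]} (hdvd : (X - 1 : ℤ[X]) ^ d ∣ L)
    (hE : E.degree < d) (x s : ℝ) :
    ∑ u ∈ range (L.natDegree + 1), (L.coeff u : ℝ) * E.eval (x + s * (u : ℝ)) = 0 := by
  have hdeg : (E.comp (C x + C s * X)).degree < d := by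
    by_cases h0 : E = 0
    · rw [h0, zero_comp, degree_zero]
      exact WithBot.bot_lt_coe _
    · have h1 : E.natDegree < d := by
        rw [degree_eq_natDegree h0] at hE
        exact_mod_cast hE
      have h2 : (C x + C s * X : ℝ[X]).natDegree ≤ 1 := by
        refine (natDegree_add_le _ _).trans (max_le ?_ ?_)
        · rw [natDegree_C]
          exact Nat.zero_le 1
        · refine (natDegree_mul_le).trans ?_
          rw [natDegree_C, natDegree_X]
      have h3 : (E.comp (C x + C s * X)).natDegree < d := by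
        refine lt_of_le_of_lt natDegree_comp_le ?_
        refine lt_of_le_of_lt (Nat.mul_le_mul_left _ h2) ?_
        rw [mul_one]
        exact h1
      exact degree_le_natDegree.trans_lt (by exact_mod_cast h3)
  have h := hM L d _ hdvd hdeg
  simp only [eval_comp, eval_add, eval_mul, eval_C, eval_X] at h
  exact h

theorem key (hM : S_MOM1) {L : ℤ[X]} {d ℓ R : ℕ} {η : ℝ} {E : ℝ[X]} {B : Finset ℕ} (hT : Tern L)
    (h0 : L.coeff 0 ≠ 0) (hℓ : L.natDegree ≤ ℓ) (hdvd : (X - 1 : ℤ[X]) ^ d ∣ L)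
    (hE : E.degree < d) (hη : 0 ≤ η) (hB : B.card ≤ R) (i : ℕ) (sg : ℝ) (hsg : sg ≠ 0)
    (pt : ℕ → ℕ → ℕ)
    (hpt : ∀ σ u, σ ≤ R * ℓ + 1 → u ≤ ℓ → ((pt σ u : ℕ) : ℝ) = i + (sg * σ) * u)
    (hG : ∀ σ u, 1 ≤ σ → σ ≤ R * ℓ + 1 → 1 ≤ u → u ≤ ℓ → pt σ u ∉ B →
      |E.eval ((pt σ u : ℕ) : ℝ)| ≤ η) :
    |E.eval (i : ℝ)| ≤ ℓ * η := by
  obtain ⟨σ, hσ1, hσ2, hσ3⟩ : ∃ σ, 1 ≤ σ ∧ σ ≤ R * ℓ + 1 ∧ ∀ u, 1 ≤ u → u ≤ ℓ → pt σ u ∉ B := by
    by_contra hcon
    push Not at hcon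
    choose u hu1 hu2 hu3 using hcon
    have hcard : (Icc 1 (R * ℓ + 1)).card ≤ (B ×ˢ Icc 1 ℓ).card := by
      refine Finset.card_le_card_of_injOn
        (fun σ => if h : 1 ≤ σ ∧ σ ≤ R * ℓ + 1 then (pt σ (u σ h.1 h.2), u σ h.1 h.2) else (0, 0))
        ?_ ?_
      · intro σ hσ
        have h := Finset.mem_Icc.1 (Finset.mem_coe.1 hσ)
        simp only [dif_pos h]
        rw [Finset.mem_coe, Finset.mem_product]
        exact ⟨hu3 σ h.1 h.2, Finset.mem_Icc.2 ⟨hu1 σ h.1 h.2, hu2 σ h.1 h.2⟩⟩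
      · intro σ hσ τ hτ hst
        have h := Finset.mem_Icc.1 (Finset.mem_coe.1 hσ)
        have h' := Finset.mem_Icc.1 (Finset.mem_coe.1 hτ)
        simp only [dif_pos h, dif_pos h', Prod.mk.injEq] at hst
        obtain ⟨e1, e2⟩ := hst
        have e3 := hpt σ (u σ h.1 h.2) h.2 (hu2 σ h.1 h.2)
        have e4 := hpt τ (u τ h'.1 h'.2) h'.2 (hu2 τ h'.1 h'.2)
        rw [← e1, e3, ← e2] at e4
        have e5 : (0 : ℝ) < (u σ h.1 h.2 : ℕ) := by
          exact_mod_cast hu1 σ h.1 h.2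
        have e6 : sg * (u σ h.1 h.2 : ℕ) * ((σ : ℝ) - τ) = 0 := by linear_combination e4
        rcases mul_eq_zero.1 e6 with e7 | e7
        · exact absurd e7 (mul_ne_zero hsg e5.ne')
        · exact_mod_cast sub_eq_zero.1 e7
    rw [Finset.card_product, Nat.card_Icc, Nat.card_Icc] at hcard
    have h1 : B.card * (ℓ + 1 - 1) ≤ R * ℓ := by
      rw [Nat.add_sub_cancel]
      exact Nat.mul_le_mul_right _ hB
    omega
  have hrel := relE hM hdvd hE (i : ℝ) (sg * σ)
  rw [Finset.sum_range_succ'] at hrel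
  simp only [Nat.cast_zero, mul_zero, add_zero] at hrel
  have hL0 : |(L.coeff 0 : ℝ)| = 1 := by
    rcases hT 0 with h | h | h
    · exact absurd h h0
    · rw [h]; simp
    · rw [h]; simp
  have h1 : |E.eval (i : ℝ)| = |∑ u ∈ range L.natDegree,
      (L.coeff (u + 1) : ℝ) * E.eval ((i : ℝ) + sg * σ * ((u + 1 : ℕ) : ℝ))| := by
    have h2 : (L.coeff 0 : ℝ) * E.eval (i : ℝ) = -∑ u ∈ range L.natDegree,
        (L.coeff (u + 1) : ℝ) * E.eval ((i : ℝ) + sg * σ * ((u + 1 : ℕ) : ℝ)) := by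
      linear_combination hrel
    have h3 := congrArg abs h2
    rwa [abs_mul, hL0, one_mul, abs_neg] at h3
  rw [h1]
  calc |∑ u ∈ range L.natDegree,
      (L.coeff (u + 1) : ℝ) * E.eval ((i : ℝ) + sg * σ * ((u + 1 : ℕ) : ℝ))| ≤
      ∑ u ∈ range L.natDegree,
      |(L.coeff (u + 1) : ℝ) * E.eval ((i : ℝ) + sg * σ * ((u + 1 : ℕ) : ℝ))| :=
        Finset.abs_sum_le_sum_abs _ _
    _ ≤ ∑ _u ∈ range L.natDegree, η := by
        refine Finset.sum_le_sum fun u hu => ?_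
        have hu' : u + 1 ≤ ℓ := (Nat.succ_le_of_lt (mem_range.1 hu)).trans hℓ
        rw [abs_mul, ← hpt σ (u + 1) hσ2 hu']
        have h4 : |(L.coeff (u + 1) : ℝ)| ≤ 1 := by
          rcases hT (u + 1) with h | h | h <;> rw [h] <;> simp
        have h5 := hG σ (u + 1) hσ1 hσ2 (by omega) hu' (hσ3 (u + 1) (by omega) hu')
        calc |(L.coeff (u + 1) : ℝ)| * |E.eval ((pt σ (u + 1) : ℕ) : ℝ)| ≤ 1 * η :=
              mul_le_mul h4 h5 (abs_nonneg _) zero_le_one
          _ = η := one_mul η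
    _ = L.natDegree * η := by rw [Finset.sum_const, card_range, nsmul_eq_mul]
    _ ≤ ℓ * η := by
        refine mul_le_mul_of_nonneg_right ?_ hη
        exact_mod_cast hℓ

end EXT

theorem t_EXT (hM : S_MOM1) : S_EXT := by
  intro d ℓ R N η L g p n B a b hT h0 hℓ hdvd hg hp hpi hη hη1 hB hgn hbN hab hin hN
  obtain ⟨E, hEdef⟩ : ∃ E : ℝ[X], E = g - p := ⟨_, rfl⟩
  have hEe : ∀ x : ℝ, E.eval x = g.eval x - p.eval x := fun x => by rw [hEdef, eval_sub]
  have hE : E.degree < d := by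
    rw [hEdef]
    exact (degree_sub_le g p).trans_lt (max_lt hg hp)
  obtain ⟨W, hW⟩ : ∃ W, W = (R * ℓ + 1) * ℓ := ⟨_, rfl⟩
  rw [← hW] at hab hN
  -- the bound for the distances
  have hdist : ∀ σ u : ℕ, σ ≤ R * ℓ + 1 → u ≤ ℓ → σ * u ≤ W := by
    intro σ u h1 h2
    rw [hW]
    exact Nat.mul_le_mul h1 h2
  -- to the left
  have left : ∀ lo i : ℕ, lo + W ≤ i →
      (∀ x, lo ≤ x → x < i → x ∉ B → |E.eval (x : ℝ)| ≤ η) → |E.eval (i : ℝ)| ≤ ℓ * η := by
    intro lo i h1 h2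
    refine EXT.key hM hT h0 hℓ hdvd hE hη hB i (-1) (by norm_num) (fun σ u => i - σ * u) ?_ ?_
    · intro σ u h3 h4
      have h5 := hdist σ u h3 h4
      rw [Nat.cast_sub (by omega), Nat.cast_mul]
      ring
    · intro σ u h3 h4 h5 h6 h7
      have h8 := hdist σ u h4 h6
      have h9 : 1 ≤ σ * u := Nat.one_le_iff_ne_zero.2 (Nat.mul_ne_zero (by omega) (by omega))
      exact h2 _ (by omega) (by omega) h7
  -- to the right
  have right : ∀ hi i : ℕ, i + W < hi →
      (∀ x, i < x → x < hi → x ∉ B → |E.eval (x : ℝ)| ≤ η) → |E.eval (i : ℝ)| ≤ ℓ * η := by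
    intro hi i h1 h2
    refine EXT.key hM hT h0 hℓ hdvd hE hη hB i 1 (by norm_num) (fun σ u => i + σ * u) ?_ ?_
    · intro σ u h3 h4
      push_cast
      ring
    · intro σ u h3 h4 h5 h6 h7
      have h8 := hdist σ u h4 h6
      have h9 : 1 ≤ σ * u := Nat.one_le_iff_ne_zero.2 (Nat.mul_ne_zero (by omega) (by omega))
      exact h2 _ (by omega) (by omega) h7
  -- from values to the difference
  have hsmall : ∀ x, x < N → x ∉ B → p.eval (x : ℝ) = n x → |E.eval (x : ℝ)| ≤ η := by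
    intro x h1 h2 h3
    rw [hEe, h3]
    exact hgn x h1 h2
  -- from the difference to values
  have hval : ∀ x, x < N → x ∉ B → |E.eval (x : ℝ)| ≤ ℓ * η → p.eval (x : ℝ) = n x := by
    intro x h1 h2 h3
    obtain ⟨z, hz⟩ := hpi x
    rw [hz]
    have h4 := hgn x h1 h2
    rw [hEe, hz] at h3
    have h5 : |((z - n x : ℤ) : ℝ)| < 1 := by
      push_cast
      calc |(z : ℝ) - n x| = |(g.eval (x : ℝ) - n x) - (g.eval (x : ℝ) - z)| := by
            congr 1
            ring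
        _ ≤ |g.eval (x : ℝ) - n x| + |g.eval (x : ℝ) - z| := abs_sub _ _
        _ ≤ η + ℓ * η := add_le_add h4 h3
        _ = ((ℓ : ℝ) + 1) * η := by ring
        _ < 1 := hη1
    rw [← Int.cast_abs] at h5
    have h6 : |z - n x| < 1 := by exact_mod_cast h5
    have h7 : z - n x = 0 := Int.abs_lt_one_iff.1 h6
    have h8 : z = n x := sub_eq_zero.1 h7
    rw [h8]
  -- up
  have up : ∀ i, a ≤ i → i < N → i ∉ B → p.eval (i : ℝ) = n i := by
    intro i
    induction i using Nat.strong_induction_on with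
    | _ i ih =>
      intro h1 h2 h3
      by_cases h4 : i < b
      · exact (hin i h1 h4).2
      · refine hval i h2 h3 (left a i (by omega) fun x h5 h6 h7 => ?_)
        exact hsmall x (by omega) h7 (ih x h6 h5 (by omega) h7)
  -- down
  have down : ∀ k i, N - i ≤ k → i < N → i ∉ B → p.eval (i : ℝ) = n i := by
    intro k
    induction k with
    | zero =>
      intro i h1 h2
      omega
    | succ k ih =>
      intro i h1 h2 h3
      by_cases h4 : a ≤ i
      · exact up i h4 h2 h3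
      · refine hval i h2 h3 (right N i (by omega) fun x h5 h6 h7 => ?_)
        exact hsmall x h6 h7 (ih x (by omega) h6 h7)
  have all : ∀ x, x < N → x ∉ B → |E.eval (x : ℝ)| ≤ η := fun x h1 h2 =>
    hsmall x h1 h2 (down N x (by omega) h1 h2)
  intro i hi
  rw [← hEe]
  by_cases h1 : W ≤ i
  · exact left 0 i (by omega) fun x _ h3 h4 => all x (by omega) h4
  · exact right N i (by omega) fun x _ h3 h4 => all x h3 h4

end Pool.Agent.Q150.MZ
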