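import Pool.Agent.H104.MZ.Stm

/-!
# MZ-PIG (helper150 for helper104): pigeonhole
-/

set_option autoImplicit false

open Polynomial Finset

namespace Pool.Agent.Q150.MZ

open Pool.Agent.H104.MZ

namespace PIG

theorem num (d : ℕ) (hd : 1 ≤ d) : ((16 * d ^ 3) ^ d + 1) ^ d < 2 ^ (16 * d ^ 3) := by
  have h1 : d ≤ 2 ^ d := Nat.lt_two_pow_self.le
  have h2 : 16 * d ^ 3 ≤ 2 ^ (4 + 3 * d) := by
    calc 16 * d ^ 3 ≤ 16 * (2 ^ d) ^ 3 := by gcongr
      _ = 2 ^ (4 + 3 * d) := by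
        rw [pow_add, ← pow_mul, mul_comm d 3]
        norm_num
  have h3 : 1 ≤ (16 * d ^ 3) ^ d := Nat.one_le_pow _ _ (by positivity)
  calc ((16 * d ^ 3) ^ d + 1) ^ d ≤ (2 * (2 ^ (4 + 3 * d)) ^ d) ^ d := by
        gcongr
        calc (16 * d ^ 3) ^ d + 1 ≤ 2 * (16 * d ^ 3) ^ d := by omega
          _ ≤ 2 * (2 ^ (4 + 3 * d)) ^ d := by gcongr
    _ = 2 ^ ((1 + (4 + 3 * d) * d) * d) := by
        rw [← pow_mul, ← pow_succ', ← pow_mul, add_comm 1]
    _ < 2 ^ (16 * d ^ 3) := by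
        refine Nat.pow_lt_pow_right (by norm_num) ?_
        nlinarith [Nat.mul_le_mul hd hd, Nat.mul_le_mul (Nat.mul_le_mul hd hd) hd,
          Nat.mul_le_mul_left (d * d) hd, Nat.mul_le_mul_left d hd]

theorem exists_pair (d : ℕ) (hd : 1 ≤ d) : ∃ b ∈ (range (16 * d ^ 3)).powerset,
    ∃ b' ∈ (range (16 * d ^ 3)).powerset, b ≠ b' ∧
      ∀ k < d, ∑ i ∈ b, i.choose k = ∑ i ∈ b', i.choose k := by
  have hℓ : 1 ≤ 16 * d ^ 3 := by
    have : 1 ≤ d ^ 3 := Nat.one_le_pow _ _ hd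
    omega
  have key : ((Fintype.piFinset fun _ : Fin d => range ((16 * d ^ 3) ^ d + 1))).card <
      (range (16 * d ^ 3)).powerset.card := by
    rw [Fintype.card_piFinset, card_powerset]
    simp only [card_range, prod_const, card_univ, Fintype.card_fin]
    exact num d hd
  obtain ⟨b, hb, b', hb', hne, h⟩ := exists_ne_map_eq_of_card_lt_of_maps_to key
    (f := fun b => fun k : Fin d => ∑ i ∈ b, i.choose k) (by
      intro b hb
      have hb2 : b ⊆ range (16 * d ^ 3) := mem_powerset.1 hb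
      refine Finset.mem_coe.2 (Fintype.mem_piFinset.2 fun k => ?_)
      rw [mem_range, Nat.lt_succ_iff]
      calc ∑ i ∈ b, i.choose k ≤ ∑ i ∈ range (16 * d ^ 3), i.choose k :=
            Finset.sum_le_sum_of_subset hb2
        _ ≤ ∑ _i ∈ range (16 * d ^ 3), (16 * d ^ 3) ^ (k : ℕ) := by
            refine Finset.sum_le_sum fun i hi => ?_
            exact (Nat.choose_le_pow i k).trans (Nat.pow_le_pow_left (mem_range.1 hi).le _)
        _ = (16 * d ^ 3) ^ ((k : ℕ) + 1) := by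
            rw [sum_const, card_range, smul_eq_mul, ← pow_succ']
        _ ≤ (16 * d ^ 3) ^ d := Nat.pow_le_pow_right hℓ k.2)
  refine ⟨b, hb, b', hb', hne, fun k hk => ?_⟩
  exact congrFun h ⟨k, hk⟩

end PIG

theorem t_PIG (h : S_MOM2) : S_PIG := by
  classical
  intro d hd
  obtain ⟨b, hb, b', hb', hne, hsum⟩ := PIG.exists_pair d hd
  obtain ⟨ℓ, hℓ⟩ : ∃ ℓ, ℓ = 16 * d ^ 3 := ⟨_, rfl⟩
  rw [← hℓ] at hb hb' ⊢
  rw [mem_powerset] at hb hb'
  have hℓ1 : 1 ≤ ℓ := by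
    have : 1 ≤ d ^ 3 := Nat.one_le_pow _ _ hd
    omega
  -- the polynomial
  obtain ⟨L1, hL1⟩ : ∃ L1 : ℤ[X], L1 = ∑ i ∈ b, X ^ i - ∑ i ∈ b', X ^ i := ⟨_, rfl⟩
  have hc : ∀ i, L1.coeff i = (if i ∈ b then 1 else 0) - (if i ∈ b' then 1 else 0) := by
    intro i
    rw [hL1, coeff_sub, finsetSum_coeff, finsetSum_coeff]
    simp only [coeff_X_pow]
    rw [Finset.sum_ite_eq b i (fun _ => (1 : ℤ)), Finset.sum_ite_eq b' i (fun _ => (1 : ℤ))]
  have hbig : ∀ i, ℓ ≤ i → L1.coeff i = 0 := by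
    intro i hi
    rw [hc, if_neg, if_neg, sub_zero]
    · exact fun h' => absurd (mem_range.1 (hb' h')) (not_lt.2 hi)
    · exact fun h' => absurd (mem_range.1 (hb h')) (not_lt.2 hi)
  have hL0 : L1 ≠ 0 := by
    intro h0
    apply hne
    ext i
    have h1 := hc i
    rw [h0, coeff_zero] at h1
    by_cases h2 : i ∈ b <;> by_cases h3 : i ∈ b' <;> simp [h2, h3] at h1 ⊢
  have hdeg : L1.natDegree < ℓ := by
    rw [Nat.lt_iff_le_pred hℓ1, natDegree_le_iff_coeff_eq_zero]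
    intro i hi
    exact hbig i (by omega)
  have hdvd : (X - 1 : ℤ[X]) ^ d ∣ L1 := by
    refine h L1 d ℓ hdeg fun k hk => ?_
    have h1 : ∀ c : Finset ℕ, c ⊆ range ℓ → ∑ i ∈ range ℓ, (if i ∈ c then (1 : ℤ) else 0) *
        ((i.choose k : ℕ) : ℤ) = ((∑ i ∈ c, i.choose k : ℕ) : ℤ) := by
      intro c hcs
      simp only [ite_mul, one_mul, zero_mul]
      rw [← Finset.sum_filter, Nat.cast_sum]
      congr 1
      ext i
      rw [mem_filter]
      exact ⟨fun h => h.2, fun h => ⟨hcs h, h⟩⟩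
    simp only [hc, sub_mul]
    rw [Finset.sum_sub_distrib, h1 b hb, h1 b' hb', hsum k hk, sub_self]
  -- divide by the power of `X`
  obtain ⟨v, hv⟩ : ∃ v, v = L1.natTrailingDegree := ⟨_, rfl⟩
  obtain ⟨L, hL⟩ : X ^ v ∣ L1 := by
    rw [X_pow_dvd_iff]
    intro i hi
    exact coeff_eq_zero_of_lt_natTrailingDegree (by rw [← hv]; exact hi)
  have hcL : ∀ i, L.coeff i = L1.coeff (i + v) := by
    intro i
    rw [hL, coeff_X_pow_mul]
  refine ⟨L, ?_, ?_, ?_, ?_⟩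
  · intro i
    rw [hcL, hc]
    by_cases h2 : i + v ∈ b <;> by_cases h3 : i + v ∈ b' <;> simp [h2, h3]
  · rw [hcL, zero_add, hv]
    exact mt trailingCoeff_eq_zero.1 hL0
  · rw [natDegree_le_iff_coeff_eq_zero]
    intro i hi
    rw [hcL]
    exact hbig _ (by omega)
  · have hcop : IsCoprime ((X - 1 : ℤ[X]) ^ d) (X ^ v) := by
      refine IsCoprime.pow ⟨-1, 1, by ring⟩
    rw [hL] at hdvd
    exact hcop.dvd_of_dvd_mul_left hdvd

end Pool.Agent.Q150.MZ
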